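import Mathlib

/-!
# The weak `𝔪`-extension property implies weak `𝔪`-distributivity

Let `𝔪` be an infinite cardinal. We prove that every Boolean `𝔪`-algebra with the weak
`𝔪`-extension property is weakly `𝔪`-distributive. So there is no Boolean `𝔪`-algebra with the weak
`𝔪`-extension property which is not weakly `𝔪`-distributive.
-/

set_option autoImplicit false

open Cardinal Set

universe u

namespace Pool.Agent.Results.MP_0b62d6_lc.WeakExtDistr

/-- `A` is a Boolean `𝔪`-algebra: every family of at most `𝔪` elements has a join and a meet. -/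
def IsMAlgebra (m : Cardinal.{u}) (A : Type u) [BooleanAlgebra A] : Prop :=
  ∀ (T : Type u) (a : T → A), #T ≤ m → (∃ x, IsLUB (range a) x) ∧ (∃ x, IsGLB (range a) x)

/-- `F` is an `𝔪`-homomorphism: it preserves joins and meets of all families of at most `𝔪`
elements. -/
def IsMHom (m : Cardinal.{u}) {A B : Type u} [BooleanAlgebra A] [BooleanAlgebra B]
    (F : BoundedLatticeHom A B) : Prop :=
  ∀ (T : Type u) (a : T → A), #T ≤ m →
    (∀ x, IsLUB (range a) x → IsLUB (range fun t => F (a t)) (F x)) ∧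
    (∀ x, IsGLB (range a) x → IsGLB (range fun t => F (a t)) (F x))

/-- `A₀` `𝔪`-generates `A`: the only subalgebra of `A` that contains `A₀` and is closed under joins
and meets of families of at most `𝔪` elements is `A` itself. -/
def MGenerates (m : Cardinal.{u}) {A : Type u} [BooleanAlgebra A] (A₀ : BooleanSubalgebra A) :
    Prop :=
  ∀ C : BooleanSubalgebra A, A₀ ≤ C →
    (∀ (T : Type u) (a : T → A), #T ≤ m → (∀ t, a t ∈ C) →
      (∀ x, IsLUB (range a) x → x ∈ C) ∧ (∀ x, IsGLB (range a) x → x ∈ C)) →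
    C = ⊤

/-- Condition (a'): for every family `a` of at most `𝔪` elements of `A₀`, if the meet of `a`
in `A` is `0` then the meet of the images is `0`. -/
def CondA' (m : Cardinal.{u}) {A B : Type u} [BooleanAlgebra A] [BooleanAlgebra B]
    (A₀ : BooleanSubalgebra A) (f : BoundedLatticeHom A₀ B) : Prop :=
  ∀ (T : Type u) (a : T → A₀), #T ≤ m → IsGLB (range fun t => (a t : A)) ⊥ →
    IsGLB (range fun t => f (a t)) ⊥

/-- The weak `𝔪`-extension property of `B`. -/
def WeakExtension (m : Cardinal.{u}) (B : Type u) [BooleanAlgebra B] : Prop :=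
  ∀ (A : Type u) [BooleanAlgebra A], IsMAlgebra m A → ∀ A₀ : BooleanSubalgebra A,
    MGenerates m A₀ → ∀ f : BoundedLatticeHom A₀ B, CondA' m A₀ f →
      ∃ F : BoundedLatticeHom A B, IsMHom m F ∧ ∀ x : A₀, F x = f x

/-- `B` is weakly `𝔪`-distributive: if `|T|, |S| ≤ 𝔪` and `⋁ₛ a t s = 1` for each `t`, then the
elements `⋀ₜ ⋁_{s ∈ Φ t} a t s`, where `Φ` ranges over the maps from `T` to the finite nonempty
subsets of `S`, have join `1`. -/
def WeaklyDistributive (m : Cardinal.{u}) (B : Type u) [BooleanAlgebra B] : Prop :=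
  ∀ (T S : Type u), #T ≤ m → #S ≤ m → ∀ a : T → S → B, (∀ t, IsLUB (range (a t)) ⊤) →
    IsLUB {x | ∃ Φ : T → Finset S, (∀ t, (Φ t).Nonempty) ∧
      IsGLB (range fun t => (Φ t).sup (a t)) x} ⊤

section

variable {B : Type u} [BooleanAlgebra B] {T S : Type u} (a : T → S → B)

/-- The prime ideals containing, for some `t`, all the `a t s`. -/
def D : Type u := {J : Order.Ideal B // J.IsPrime ∧ ∃ t, ∀ s, a t s ∈ J}

/-- the Stone map, restricted to `D a` -/
def stone : BoundedLatticeHom B (Set (D a)) where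
  toFun c := {J | c ∉ J.1}
  map_sup' x y := by
    ext J
    simp only [Set.sup_eq_union, Set.mem_union, Set.mem_ofPred_eq]
    rw [Order.Ideal.sup_mem_iff]
    tauto
  map_inf' x y := by
    ext J
    have hJ := J.2.1
    simp only [Set.inf_eq_inter, Set.mem_inter_iff, Set.mem_ofPred_eq]
    constructor
    · intro h
      exact ⟨fun hx => h (J.1.lower inf_le_left hx), fun hy => h (J.1.lower inf_le_right hy)⟩
    · rintro ⟨h1, h2⟩ h
      rcases hJ.mem_or_mem h with h | h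
      · exact h1 h
      · exact h2 h
  map_top' := by
    ext J
    have hJ := J.2.1
    simp only [Set.mem_ofPred_eq, Set.top_eq_univ, Set.mem_univ, iff_true]
    exact hJ.toIsProper.top_notMem
  map_bot' := by
    ext J
    simp

theorem mem_stone {c : B} {J : D a} : J ∈ stone a c ↔ c ∉ J.1 := Iff.rfl

/-- compactness -/
theorem compact_step (C : Set B) (hC : ∀ J : D a, ∃ c ∈ C, c ∈ J.1) (t : T) :
    ∃ (F : Finset B) (Φ : Finset S), (↑F ⊆ C) ∧ F.inf id ≤ Φ.sup (a t) := by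
  classical
  by_contra hcon
  push Not at hcon
  let I : Order.Ideal B := Order.IsIdeal.toIdeal (I := {x | ∃ Φ : Finset S, x ≤ Φ.sup (a t)})
    { IsLowerSet := by
        rintro x y hyx ⟨Φ, hΦ⟩
        exact ⟨Φ, hyx.trans hΦ⟩
      Nonempty := ⟨⊥, ∅, bot_le⟩
      Directed := by
        rintro x ⟨Φ, hΦ⟩ y ⟨Ψ, hΨ⟩
        refine ⟨x ⊔ y, ⟨Φ ∪ Ψ, ?_⟩, le_sup_left, le_sup_right⟩
        rw [Finset.sup_union]
        exact sup_le_sup hΦ hΨ }
  have hFil : Order.IsPFilter {x : B | ∃ F : Finset B, ↑F ⊆ C ∧ F.inf id ≤ x} := by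
    apply Order.IsPFilter.of_def
    · exact ⟨⊤, ∅, by simp, le_top⟩
    · rintro x ⟨F, hF, hFx⟩ y ⟨G, hG, hGy⟩
      refine ⟨x ⊓ y, ⟨F ∪ G, ?_, ?_⟩, inf_le_left, inf_le_right⟩
      · rw [Finset.coe_union]
        exact Set.union_subset hF hG
      · rw [Finset.inf_union]
        exact inf_le_inf hFx hGy
    · rintro x y hxy ⟨F, hF, hFx⟩
      exact ⟨F, hF, hFx.trans hxy⟩
  let P : Order.PFilter B := hFil.toPFilter
  have hdis : Disjoint (P : Set B) (I : Set B) := by
    rw [Set.disjoint_left]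
    rintro x ⟨F, hF, hFx⟩ ⟨Φ, hΦ⟩
    exact hcon F Φ hF (hFx.trans hΦ)
  obtain ⟨J, hJ, hIJ, hPJ⟩ := DistribLattice.prime_ideal_of_disjoint_filter_ideal hdis
  have hJD : ∃ t, ∀ s, a t s ∈ J := by
    refine ⟨t, fun s => hIJ ?_⟩
    show ∃ Φ : Finset S, a t s ≤ Φ.sup (a t)
    exact ⟨{s}, by simp⟩
  obtain ⟨c, hcC, hcJ⟩ := hC ⟨J, hJ, hJD⟩
  refine Set.disjoint_left.1 hPJ ?_ hcJ
  show ∃ F : Finset B, ↑F ⊆ C ∧ F.inf id ≤ c
  exact ⟨{c}, by simpa using hcC, by simp⟩

end

section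

variable {m : Cardinal.{u}} {B : Type u} [BooleanAlgebra B] {T S : Type u} {a : T → S → B}

theorem main1 (hB : IsMAlgebra m B) (hT : #T ≤ m) [Nonempty S] {c₀ : B}
    (hc₀ : ∀ (Φ : T → Finset S) (x : B), (∀ t, (Φ t).Nonempty) →
      IsGLB (range fun t => (Φ t).sup (a t)) x → x ≤ c₀)
    (C : Set B) (hC : ∀ J : D a, ∃ c ∈ C, c ∈ J.1) (z : B) (hz : ∀ c ∈ C, z ≤ c) :
    z ≤ c₀ := by
  classical
  obtain ⟨s₀⟩ := ‹Nonempty S›
  have h1 : ∀ t, ∃ Φ : Finset S, Φ.Nonempty ∧ z ≤ Φ.sup (a t) := by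
    intro t
    obtain ⟨F, Φ, hF, hFΦ⟩ := compact_step a C hC t
    refine ⟨insert s₀ Φ, ⟨s₀, by simp⟩, ?_⟩
    calc z ≤ F.inf id := Finset.le_inf (fun c hc => hz c (hF hc))
      _ ≤ Φ.sup (a t) := hFΦ
      _ ≤ (insert s₀ Φ).sup (a t) := Finset.sup_mono (Finset.subset_insert _ _)
  choose Φ hΦ hzΦ using h1
  obtain ⟨x, hx⟩ := (hB T (fun t => (Φ t).sup (a t)) hT).2
  refine le_trans (hx.2 ?_) (hc₀ Φ x hΦ hx)
  rintro _ ⟨t, rfl⟩
  exact hzΦ t

end

section field

variable {m : Cardinal.{u}} {X : Type u}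

/-- the `𝔪`-field of sets generated by a family of sets -/
def gen (m : Cardinal.{u}) (G : Set (Set X)) : BooleanSubalgebra (Set X) :=
  sInf {L | G ⊆ L ∧ ∀ (T : Type u) (a : T → Set X), #T ≤ m → (∀ t, a t ∈ L) → (⋃ t, a t) ∈ L}

theorem subset_gen (G : Set (Set X)) : G ⊆ gen m G := by
  intro g hg
  rw [gen, SetLike.mem_coe, BooleanSubalgebra.mem_sInf]
  rintro L ⟨hL, -⟩
  exact hL hg

theorem iUnion_mem_gen {G : Set (Set X)} {T : Type u} {a : T → Set X} (hT : #T ≤ m)
    (ha : ∀ t, a t ∈ gen m G) : (⋃ t, a t) ∈ gen m G := by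
  rw [gen, BooleanSubalgebra.mem_sInf]
  rintro L ⟨hL1, hL2⟩
  apply hL2 T a hT
  intro t
  have h := ha t
  rw [gen, BooleanSubalgebra.mem_sInf] at h
  exact h L ⟨hL1, hL2⟩

theorem iInter_mem_gen {G : Set (Set X)} {T : Type u} {a : T → Set X} (hT : #T ≤ m)
    (ha : ∀ t, a t ∈ gen m G) : (⋂ t, a t) ∈ gen m G := by
  have h := iUnion_mem_gen (a := fun t => (a t)ᶜ) hT (fun t => BooleanSubalgebra.compl_mem (ha t))
  have h2 := BooleanSubalgebra.compl_mem h
  rw [Set.compl_iUnion] at h2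
  simpa using h2

theorem gen_le {G : Set (Set X)} {L : BooleanSubalgebra (Set X)} (h1 : G ⊆ L)
    (h2 : ∀ (T : Type u) (a : T → Set X), #T ≤ m → (∀ t, a t ∈ L) → (⋃ t, a t) ∈ L) :
    gen m G ≤ L :=
  sInf_le ⟨h1, h2⟩

theorem isLUB_gen {G : Set (Set X)} {T : Type u} {a : T → gen m G} (hT : #T ≤ m) :
    IsLUB (range a) ⟨⋃ t, (a t : Set X), iUnion_mem_gen hT fun t => (a t).2⟩ := by
  constructor
  · rintro _ ⟨t, rfl⟩
    exact Set.subset_iUnion (fun t => (a t : Set X)) t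
  · intro x hx
    refine Set.iUnion_subset fun t => ?_
    exact hx ⟨t, rfl⟩

theorem isGLB_gen {G : Set (Set X)} {T : Type u} {a : T → gen m G} (hT : #T ≤ m) :
    IsGLB (range a) ⟨⋂ t, (a t : Set X), iInter_mem_gen hT fun t => (a t).2⟩ := by
  constructor
  · rintro _ ⟨t, rfl⟩
    exact Set.iInter_subset (fun t => (a t : Set X)) t
  · intro x hx
    refine Set.subset_iInter fun t => ?_
    exact hx ⟨t, rfl⟩

theorem isMAlgebra_gen (G : Set (Set X)) : IsMAlgebra m (gen m G) :=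
  fun _ _ hT => ⟨⟨_, isLUB_gen hT⟩, ⟨_, isGLB_gen hT⟩⟩

end field

section main

variable {m : Cardinal.{u}} {B : Type u} [BooleanAlgebra B] {T S : Type u} {a : T → S → B}

/-- the homomorphism `c ↦ (c ⊓ b) ⊔ (bᶜ if c belongs to the ultrafilter complementary to J₀)` -/
noncomputable def g (b : B) (J₀ : D a) : BoundedLatticeHom B B := by
  classical exact
  { toFun := fun c => (c ⊓ b) ⊔ (if c ∈ J₀.1 then ⊥ else bᶜ)
    map_sup' := by
      intro x y
      have h : x ⊔ y ∈ J₀.1 ↔ x ∈ J₀.1 ∧ y ∈ J₀.1 := Order.Ideal.sup_mem_iff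
      by_cases hx : x ∈ J₀.1
      · by_cases hy : y ∈ J₀.1
        · rw [if_pos (h.2 ⟨hx, hy⟩), if_pos hx, if_pos hy]
          simp [inf_sup_right]
        · rw [if_neg (fun hh => hy (h.1 hh).2), if_pos hx, if_neg hy]
          simp [inf_sup_right, sup_assoc]
      · rw [if_neg (fun hh => hx (h.1 hh).1), if_neg hx]
        by_cases hy : y ∈ J₀.1
        · rw [if_pos hy, inf_sup_right]
          simp [sup_assoc, sup_comm]
        · rw [if_neg hy, inf_sup_right]
          rw [sup_assoc, sup_assoc]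
          congr 1
          rw [← sup_assoc, sup_comm bᶜ, sup_assoc, sup_idem]
    map_inf' := by
      intro x y
      have h : x ⊓ y ∈ J₀.1 ↔ x ∈ J₀.1 ∨ y ∈ J₀.1 := by
        constructor
        · exact fun h => J₀.2.1.mem_or_mem h
        · rintro (h | h)
          · exact J₀.1.lower inf_le_left h
          · exact J₀.1.lower inf_le_right h
      have h0 : ∀ z : B, z ⊓ b ⊓ bᶜ = ⊥ := fun z => by
        rw [inf_assoc, inf_compl_self, inf_bot_eq]
      have h0' : ∀ z : B, bᶜ ⊓ (z ⊓ b) = ⊥ := fun z => by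
        rw [inf_comm, h0]
      have h1 : x ⊓ y ⊓ b = (x ⊓ b) ⊓ (y ⊓ b) := by
        rw [inf_inf_inf_comm, inf_idem]
      by_cases hx : x ∈ J₀.1
      · rw [if_pos (h.2 (Or.inl hx)), if_pos hx, sup_bot_eq, sup_bot_eq]
        by_cases hy : y ∈ J₀.1
        · rw [if_pos hy, sup_bot_eq, h1]
        · rw [if_neg hy, inf_sup_left, h0, sup_bot_eq, h1]
      · by_cases hy : y ∈ J₀.1
        · rw [if_pos (h.2 (Or.inr hy)), if_pos hy, if_neg hx, sup_bot_eq, sup_bot_eq,
            inf_sup_right, h0', sup_bot_eq, h1]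
        · rw [if_neg (fun hh => (h.1 hh).elim hx hy), if_neg hx, if_neg hy, h1, sup_inf_right]
    map_top' := by
      have h : (⊤ : B) ∉ J₀.1 := J₀.2.1.toIsProper.top_notMem
      rw [if_neg h]
      simp
    map_bot' := by
      rw [if_pos J₀.1.bot_mem]
      simp }

theorem g_inf (b : B) (J₀ : D a) (c : B) : g b J₀ c ⊓ b = c ⊓ b := by
  classical
  show ((c ⊓ b) ⊔ (if c ∈ J₀.1 then ⊥ else bᶜ)) ⊓ b = c ⊓ b
  rw [inf_sup_right, inf_assoc, inf_idem]
  split_ifs <;> simp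

theorem g_le (b : B) (J₀ : D a) (c : B) (h : c ∈ J₀.1) : g b J₀ c ≤ b := by
  classical
  show ((c ⊓ b) ⊔ (if c ∈ J₀.1 then ⊥ else bᶜ)) ≤ b
  rw [if_pos h, sup_bot_eq]
  exact inf_le_right

theorem g_congr (b : B) (J₀ : D a) {c c' : B} (h1 : c ⊓ b = c' ⊓ b)
    (h2 : stone a c = stone a c') : g b J₀ c = g b J₀ c' := by
  classical
  show ((c ⊓ b) ⊔ (if c ∈ J₀.1 then ⊥ else bᶜ)) = ((c' ⊓ b) ⊔ (if c' ∈ J₀.1 then ⊥ else bᶜ))
  have h3 : c ∉ J₀.1 ↔ c' ∉ J₀.1 := by
    rw [← mem_stone a, ← mem_stone a, h2]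
  rw [h1]
  by_cases h : c ∈ J₀.1
  · rw [if_pos h, if_pos (not_not.1 (fun h' => (h3.2 h') h))]
  · rw [if_neg h, if_neg (h3.1 h)]

/-- the algebra `A` -/
abbrev Alg (m : Cardinal.{u}) (a : T → S → B) : Type u := gen m (range (stone a))

theorem stone_mem (c : B) : stone a c ∈ gen m (range (stone a)) := subset_gen _ ⟨c, rfl⟩

/-- the subalgebra `A₀` -/
def A₀ (m : Cardinal.{u}) (a : T → S → B) : BooleanSubalgebra (Alg m a) where
  carrier := {x | ∃ c : B, stone a c = (x : Set (D a))}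
  supClosed' := by
    rintro x ⟨c, hc⟩ y ⟨d, hd⟩
    exact ⟨c ⊔ d, by rw [map_sup, hc, hd]; rfl⟩
  infClosed' := by
    rintro x ⟨c, hc⟩ y ⟨d, hd⟩
    exact ⟨c ⊓ d, by rw [map_inf, hc, hd]; rfl⟩
  compl_mem' := by
    rintro x ⟨c, hc⟩
    exact ⟨cᶜ, by rw [map_compl', hc]; rfl⟩
  bot_mem' := ⟨⊥, by rw [map_bot]; rfl⟩

theorem mem_A₀ {x : Alg m a} : x ∈ A₀ m a ↔ ∃ c : B, stone a c = (x : Set (D a)) := Iff.rfl

theorem mgenerates : MGenerates m (A₀ m a) := by
  intro C hC hcl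
  have h : gen m (range (stone a)) ≤ C.map (BooleanSubalgebra.subtype _) := by
    apply gen_le
    · rintro _ ⟨c, rfl⟩
      exact ⟨⟨stone a c, stone_mem c⟩, hC ⟨c, rfl⟩, rfl⟩
    · intro I x hI hx
      choose y hy hyx using hx
      refine ⟨⟨⋃ t, x t, ?_⟩, ?_, rfl⟩
      · apply iUnion_mem_gen hI
        intro t
        rw [← hyx t]
        exact (y t).2
      · apply (hcl I y hI hy).1
        have h := isLUB_gen (a := y) hI
        have e : (⋃ t, x t) = ⋃ t, (y t : Set (D a)) := by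
          congr 1
          funext t
          exact (hyx t).symm
        exact (Subtype.ext e : (⟨⋃ t, x t, _⟩ : Alg m a) = ⟨⋃ t, (y t : Set (D a)), _⟩) ▸ h
  rw [eq_top_iff]
  intro x _
  obtain ⟨y, hy, hyx⟩ := h x.2
  have : y = x := Subtype.ext hyx
  rw [← this]
  exact hy

end main

/-- **Theorem.** Let `𝔪` be an infinite cardinal. Every Boolean `𝔪`-algebra with the weak
`𝔪`-extension property is weakly `𝔪`-distributive. -/
theorem result (m : Cardinal.{u}) (hm : ℵ₀ ≤ m) (B : Type u) [BooleanAlgebra B]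
    (hB : IsMAlgebra m B) (hW : WeakExtension m B) : WeaklyDistributive m B := by
  classical
  intro T S hT hS a ha
  by_contra hcon
  -- an upper bound `c₀ ≠ ⊤`
  obtain ⟨c₀, hc₀, hne⟩ : ∃ c₀, (∀ (Φ : T → Finset S) (x : B), (∀ t, (Φ t).Nonempty) →
      IsGLB (range fun t => (Φ t).sup (a t)) x → x ≤ c₀) ∧ c₀ ≠ ⊤ := by
    by_contra h
    push Not at h
    apply hcon
    refine ⟨fun x _ => le_top, fun c hc => ?_⟩
    rw [h c (fun Φ x h1 h2 => hc ⟨Φ, h1, h2⟩)]
  -- `T` and `S` are nonempty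
  have hTne : Nonempty T := by
    by_contra h
    rw [not_nonempty_iff] at h
    apply hne
    refine top_le_iff.1 (hc₀ (fun _ => ∅) ⊤ (fun t => h.elim t) ?_)
    rw [Set.range_eq_empty]
    exact isGLB_empty
  have hSne : Nonempty S := by
    by_contra h
    rw [not_nonempty_iff] at h
    obtain ⟨t⟩ := hTne
    have h1 := ha t
    rw [Set.range_eq_empty, isLUB_empty_iff] at h1
    exact hne (top_le_iff.1 ((h1 c₀)))
  have key := fun (C : Set B) hC z hz => main1 (a := a) hB hT hc₀ C hC z hz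
  -- a point
  obtain ⟨J₀⟩ : Nonempty (D a) := by
    by_contra h
    rw [not_nonempty_iff] at h
    exact hne (top_le_iff.1 (key ∅ (fun J => h.elim J) ⊤ (by simp)))
  let b : B := c₀ᶜ
  have hb : ∀ z, z ≤ c₀ → z ≤ b → z = ⊥ := fun z h1 h2 => by
    have := le_inf h1 h2
    rwa [inf_compl_self, le_bot_iff] at this
  have hstone : ∀ c c' : B, stone a c = stone a c' → c ⊓ b = c' ⊓ b := by
    have h1 : ∀ c c' : B, stone a c = stone a c' → c ⊓ b ≤ c' := by
      intro c c' h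
      have h2 : c ⊓ c'ᶜ ≤ c₀ := by
        refine key {c ⊓ c'ᶜ} (fun J => ⟨_, rfl, ?_⟩) _ (by simp)
        by_contra hJ
        rw [← mem_stone a, map_inf, map_compl', h] at hJ
        exact hJ.2 hJ.1
      have h3 : (c ⊓ b) ⊓ c'ᶜ = ⊥ := by
        apply hb
        · exact le_trans (inf_le_inf_right _ inf_le_left) h2
        · exact inf_le_left.trans inf_le_right
      have h4 := le_compl_iff_disjoint_right.2 (disjoint_iff.2 h3)
      rwa [compl_compl] at h4
    intro c c' h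
    exact le_antisymm (le_inf (h1 c c' h) inf_le_right) (le_inf (h1 c' c h.symm) inf_le_right)
  -- the homomorphism `f`
  let ch : A₀ m a → B := fun x => (mem_A₀.1 x.2).choose
  have hch : ∀ x : A₀ m a, stone a (ch x) = ((x : Alg m a) : Set (D a)) :=
    fun x => (mem_A₀.1 x.2).choose_spec
  have hfac : ∀ (x : A₀ m a) (c : B), stone a c = ((x : Alg m a) : Set (D a)) →
      g b J₀ (ch x) = g b J₀ c := by
    intro x c hc
    have h1 : stone a (ch x) = stone a c := by rw [hch, hc]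
    exact g_congr b J₀ (hstone _ _ h1) h1
  let f : BoundedLatticeHom (A₀ m a) B :=
    { toFun := fun x => g b J₀ (ch x)
      map_sup' := by
        intro x y
        rw [hfac (x ⊔ y) (ch x ⊔ ch y) (by rw [map_sup, hch, hch]; rfl), map_sup]
      map_inf' := by
        intro x y
        rw [hfac (x ⊓ y) (ch x ⊓ ch y) (by rw [map_inf, hch, hch]; rfl), map_inf]
      map_top' := by
        rw [hfac ⊤ ⊤ (by rw [map_top]; rfl), map_top]
      map_bot' := by
        rw [hfac ⊥ ⊥ (by rw [map_bot]; rfl), map_bot] }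
  have hf : ∀ (x : A₀ m a) (c : B), stone a c = ((x : Alg m a) : Set (D a)) →
      f x = g b J₀ c := hfac
  -- condition (a')
  have hcond : CondA' m (A₀ m a) f := by
    intro I x hI hx
    refine ⟨fun _ _ => bot_le, fun z hz => ?_⟩
    have hempty : (⋂ t, ((x t : Alg m a) : Set (D a))) = ∅ := by
      have h1 := (isGLB_gen (a := fun t => (x t : Alg m a)) hI).unique hx
      have h2 := congrArg Subtype.val h1
      exact h2
    have hpt : ∀ J : D a, ∃ t, ch (x t) ∈ J.1 := by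
      intro J
      by_contra h
      push Not at h
      have : J ∈ ⋂ t, ((x t : Alg m a) : Set (D a)) := by
        rw [Set.mem_iInter]
        intro t
        rw [← hch, mem_stone]
        exact h t
      rw [hempty] at this
      exact this
    have hzb : z ≤ b := by
      obtain ⟨t, ht⟩ := hpt J₀
      exact (hz ⟨t, rfl⟩).trans (g_le b J₀ _ ht)
    have hzc : ∀ t, z ≤ ch (x t) := by
      intro t
      have h1 : z ≤ g b J₀ (ch (x t)) ⊓ b := le_inf (hz ⟨t, rfl⟩) hzb
      rw [g_inf] at h1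
      exact h1.trans inf_le_left
    have : z ≤ c₀ := by
      refine key (range fun t => ch (x t)) (fun J => ?_) z ?_
      · obtain ⟨t, ht⟩ := hpt J
        exact ⟨_, ⟨t, rfl⟩, ht⟩
      · rintro _ ⟨t, rfl⟩
        exact hzc t
    exact (hb z this hzb).le
  -- the extension
  obtain ⟨F, hF, hFf⟩ := hW (Alg m a) (isMAlgebra_gen _) (A₀ m a) mgenerates f hcond
  -- the sets `D_t`
  let e : T → S → Alg m a := fun t s => ⟨stone a (a t s)ᶜ, stone_mem _⟩
  let dt : T → Alg m a := fun t => ⟨⋂ s, (e t s : Set (D a)), iInter_mem_gen hS fun s => (e t s).2⟩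
  have hdt : ∀ t, F (dt t) ≤ c₀ := by
    intro t
    have h1 : IsGLB (range (e t)) (dt t) := isGLB_gen hS
    have h2 := (hF S (e t) hS).2 _ h1
    have h3 : ∀ s, F (e t s) = g b J₀ (a t s)ᶜ := by
      intro s
      have h4 : e t s ∈ A₀ m a := ⟨(a t s)ᶜ, rfl⟩
      rw [← hf ⟨e t s, h4⟩ (a t s)ᶜ rfl]
      exact hFf ⟨e t s, h4⟩
    have h5 : ∀ s, F (dt t) ⊓ b ≤ (a t s)ᶜ := by
      intro s
      have h6 : F (dt t) ≤ g b J₀ (a t s)ᶜ := by
        rw [← h3 s]
        exact h2.1 ⟨s, rfl⟩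
      have h7 : F (dt t) ⊓ b ≤ g b J₀ (a t s)ᶜ ⊓ b := inf_le_inf_right _ h6
      rw [g_inf] at h7
      exact h7.trans inf_le_left
    have h8 : (⊤ : B) ≤ (F (dt t) ⊓ b)ᶜ := by
      refine (ha t).2 ?_
      rintro _ ⟨s, rfl⟩
      exact le_compl_comm.1 (h5 s)
    have h9 : F (dt t) ⊓ b = ⊥ := by
      rw [← compl_eq_top]
      exact top_le_iff.1 h8
    have h10 := le_compl_iff_disjoint_right.2 (disjoint_iff.2 h9)
    rwa [show bᶜ = c₀ from compl_compl _] at h10
  have hlub : IsLUB (range dt) ⊤ := by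
    have h1 := isLUB_gen (m := m) (a := dt) hT
    convert h1 using 1
    apply Subtype.ext
    show (Set.univ : Set (D a)) = ⋃ t, ((dt t : Alg m a) : Set (D a))
    symm
    rw [Set.eq_univ_iff_forall]
    intro J
    obtain ⟨t, ht⟩ := J.2.2
    rw [Set.mem_iUnion]
    refine ⟨t, ?_⟩
    show J ∈ ⋂ s, (e t s : Set (D a))
    rw [Set.mem_iInter]
    intro s
    show (a t s)ᶜ ∉ J.1
    intro h
    have hJ := J.2.1
    apply hJ.toIsProper.top_notMem
    rw [← sup_compl_eq_top (x := a t s)]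
    exact Order.Ideal.sup_mem (ht s) h
  have h11 := ((hF T dt hT).1 _ hlub).2 (show c₀ ∈ upperBounds _ by
    rintro _ ⟨t, rfl⟩
    exact hdt t)
  rw [map_top] at h11
  exact hne (top_le_iff.1 h11)

end Pool.Agent.Results.MP_0b62d6_lc.WeakExtDistr
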